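import Pool.Agent.U26.SG.Stm3
import Pool.Agent.N661.BR.Lim2
import Pool.Agent.N163.BRBASE
import Pool.Agent.N511.BRISO
import Pool.Agent.Y265.RW.U

/-!
# Project SG, package PL: planar domains have local limits
-/

set_option autoImplicit false
open MeasureTheory Filter Topology Complex
open scoped ContDiff ENNReal

namespace Pool.Agent.U867.SG

open Pool.Agent.W745.RW (lap dx dy TF Dp Dm W Sol Sys)
open Pool.Agent.Y265.RW (sy rr)
open Pool.Agent.N661.BR (MW lin IsCutoff resc W_zero S_ISO IsQuantumErgodic)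
open Pool.Agent.U26.SG

noncomputable section

/-- the normalised area measure on `Ω` -/
def PP (Ω : Set ℂ) : Measure ℂ := (volume Ω)⁻¹ • volume.restrict Ω

/-- the standing hypotheses -/
structure Hy (Ω : Set ℂ) (lam : ℕ → ℝ) (u : ℕ → ℂ → ℝ) : Prop where
  op : IsOpen Ω
  bd : Bornology.IsBounded Ω
  ne : Ω.Nonempty
  pos : ∀ n, 0 < lam n
  lim : Tendsto lam atTop atTop
  sys : Sys Ω (fun n => 1 / √(lam n)) u

/-- weights -/
structure Wg (Ω : Set ℂ) (φ : ℂ → ℝ) : Prop where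
  tf : TF Ω φ
  mem : ∀ z, φ z ∈ Set.Icc (0 : ℝ) 1

/-- the random functions -/
def X (lam : ℕ → ℝ) (u : ℕ → ℂ → ℝ) (n : ℕ) (a : ℤ) (w z : ℂ) : ℂ :=
  W (1 / √(lam n)) (u n) a (z + ((1 / √(lam n) : ℝ) : ℂ) * w)

variable {Ω : Set ℂ} {lam : ℕ → ℝ} {u : ℕ → ℂ → ℝ}

lemma vol_fin (H : Hy Ω lam u) : volume Ω ≠ ⊤ := H.bd.measure_lt_top.ne

lemma vol_pos (H : Hy Ω lam u) : volume Ω ≠ 0 := (H.op.measure_pos volume H.ne).ne'

lemma V_pos (H : Hy Ω lam u) : 0 < volume.real Ω := ENNReal.toReal_pos (vol_pos H) (vol_fin H)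

lemma prob (H : Hy Ω lam u) : IsProbabilityMeasure (PP Ω) := by
  refine ⟨?_⟩
  unfold PP
  rw [Measure.smul_apply, Measure.restrict_apply_univ, smul_eq_mul]
  exact ENNReal.inv_mul_cancel (vol_pos H) (vol_fin H)

lemma ae_PP {p : ℂ → Prop} (H : Hy Ω lam u) (h : ∀ z ∈ Ω, p z) : ∀ᵐ z ∂(PP Ω), p z := by
  unfold PP
  refine Measure.ae_smul_measure ?_ _
  exact (ae_restrict_iff' H.op.measurableSet).2 (Eventually.of_forall h)

lemma aem {F : ℂ → ℂ} (h : AEMeasurable F (volume.restrict Ω)) : AEMeasurable F (PP Ω) := by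
  unfold PP
  exact h.smul_measure _

lemma intg {E : Type} [NormedAddCommGroup E] (H : Hy Ω lam u) {F : ℂ → E}
    (h : Integrable F (volume.restrict Ω)) : Integrable F (PP Ω) := by
  unfold PP
  exact h.smul_measure (ENNReal.inv_ne_top.2 (vol_pos H))

lemma int_PP {E : Type} [NormedAddCommGroup E] [NormedSpace ℝ E] (F : ℂ → E) :
    ∫ z, F z ∂(PP Ω) = (1 / volume.real Ω) • ∫ z in Ω, F z := by
  unfold PP
  rw [integral_smul_measure, ENNReal.toReal_inv, one_div]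
  rfl

/-- integrals against a weight -/
lemma int_wt {E : Type} [NormedAddCommGroup E] [NormedSpace ℝ E] {F : ℂ → E}
    (h : ∀ z, z ∉ Ω → F z = 0) : ∫ z, F z ∂(PP Ω) = (1 / volume.real Ω) • ∫ z, F z := by
  rw [int_PP, setIntegral_eq_integral_of_forall_compl_eq_zero h]

lemma Wg.zero {φ : ℂ → ℝ} (hφ : Wg Ω φ) {z : ℂ} (hz : z ∉ Ω) : φ z = 0 := by
  by_contra h
  exact hz (hφ.tf.2.2 (subset_tsupport _ h))

lemma wint (H : Hy Ω lam u) {φ : ℂ → ℝ} (hφ : Wg Ω φ) : Integrable φ (PP Ω) :=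
  intg H (hφ.tf.1.continuous.integrable_of_hasCompactSupport hφ.tf.2.1).restrict

/-- weights which exhaust the mass -/
lemma exists_wt (H : Hy Ω lam u) : ∃ φ : ℕ → ℂ → ℝ, (∀ i, Wg Ω (φ i)) ∧
    Tendsto (fun i => ∫ z, φ i z ∂(PP Ω)) atTop (𝓝 1) := by
  haveI := prob H
  have hΩ1 : PP Ω Ω = 1 := by
    have h : ∀ᵐ z ∂(PP Ω), z ∈ Ω := ae_PP H fun z hz => hz
    rwa [← prob_compl_eq_zero_iff H.op.measurableSet, ← mem_ae_iff]
  have hex : ∀ i : ℕ, ∃ φ : ℂ → ℝ, Wg Ω φ ∧ 1 - 1 / ((i : ℝ) + 1) ≤ ∫ z, φ z ∂(PP Ω) := by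
    intro i
    have hε : (0:ℝ) < 1 / ((i : ℝ) + 1) := by positivity
    obtain ⟨K, hKΩ, hK, hlt⟩ := H.op.measurableSet.exists_isCompact_lt_add
      (μ := PP Ω) (measure_ne_top _ _) (ε := ENNReal.ofReal (1 / ((i : ℝ) + 1)))
      (by simpa using hε)
    obtain ⟨φ, h1, h2, h3, h4⟩ := Pool.Agent.Y265.RW.cutoff H.op hK hKΩ
    have hw : Wg Ω φ := ⟨h1, fun z => ⟨h2 z, h3 z⟩⟩
    refine ⟨φ, hw, ?_⟩
    have e1 : (1:ℝ) ≤ (PP Ω).real K + 1 / ((i : ℝ) + 1) := by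
      rw [hΩ1] at hlt
      have := ENNReal.toReal_mono (by simp) hlt.le
      rwa [ENNReal.toReal_add (measure_ne_top _ _) ENNReal.ofReal_ne_top,
        ENNReal.toReal_ofReal hε.le, ENNReal.toReal_one] at this
    have e2 : (PP Ω).real K ≤ ∫ z, φ z ∂(PP Ω) := by
      have h5 : (PP Ω).real K = ∫ z in K, (1 : ℝ) ∂(PP Ω) := by simp
      rw [h5, ← integral_indicator hK.measurableSet]
      refine integral_mono ?_ (wint H hw) fun z => ?_
      · exact (integrable_const (1 : ℝ)).indicator hK.measurableSet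
      · by_cases hz : z ∈ K
        · simp [hz, h4 z hz]
        · simpa [hz] using h2 z
    linarith
  choose φ hφ hφ1 using hex
  refine ⟨φ, hφ, ?_⟩
  have hle : ∀ i, ∫ z, φ i z ∂(PP Ω) ≤ 1 := by
    intro i
    have h1 : ∫ _ : ℂ, (1 : ℝ) ∂(PP Ω) = 1 := by simp
    rw [← h1]
    exact integral_mono (wint H (hφ i)) (integrable_const _) fun z => ((hφ i).mem z).2
  have h0 : Tendsto (fun i : ℕ => 1 - 1 / ((i : ℝ) + 1)) atTop (𝓝 1) := by
    have := (tendsto_one_div_add_atTop_nhds_zero_nat (𝕜 := ℝ)).const_sub 1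
    rwa [sub_zero] at this
  exact tendsto_of_tendsto_of_tendsto_of_le_of_le h0 tendsto_const_nhds hφ1 hle

lemma smooth (H : Hy Ω lam u) (n : ℕ) (a : ℤ) :
    ContinuousOn (W (1 / √(lam n)) (u n) a) Ω :=
  ((Pool.Agent.W924.RW.WP.main Ω H.op _ _ (H.sys.sol n)).1 a).continuousOn

lemma X_zero (n : ℕ) (a : ℤ) (z : ℂ) : X lam u n a 0 z = W (1 / √(lam n)) (u n) a z := by
  unfold X
  rw [mul_zero, add_zero]

lemma X_val (n : ℕ) (w z : ℂ) :
    X lam u n 0 w z = (u n (z + ((1 / √(lam n) : ℝ) : ℂ) * w) : ℂ) := rfl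

/-- for large `n` the weight is a test function on the set of all `z` with `z + h w` in `Ω` -/
lemma ev_tf (H : Hy Ω lam u) {φ : ℂ → ℝ} (hφ : Wg Ω φ) (w : ℂ) : ∀ᶠ n in atTop,
    TF {z | z + ((1 / √(lam n) : ℝ) : ℂ) * w ∈ Ω} φ := by
  obtain ⟨δ, hδ, hδ1⟩ : ∃ δ : ℝ, 0 < δ ∧ Metric.thickening δ (tsupport φ) ⊆ Ω :=
    hφ.tf.2.1.isCompact.exists_thickening_subset_open H.op hφ.tf.2.2
  have h1 : Tendsto (fun n => 1 / √(lam n) * ‖w‖) atTop (𝓝 0) := by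
    have := H.sys.hlim.mul_const ‖w‖
    rwa [zero_mul] at this
  filter_upwards [h1.eventually (gt_mem_nhds hδ)] with n hn
  refine ⟨hφ.tf.1, hφ.tf.2.1, fun z hz => ?_⟩
  show z + ((1 / √(lam n) : ℝ) : ℂ) * w ∈ Ω
  refine hδ1 (Metric.mem_thickening_iff.2 ⟨z, hz, ?_⟩)
  rw [dist_eq_norm, add_sub_cancel_left, norm_mul, Complex.norm_real, Real.norm_eq_abs,
    abs_of_nonneg (by positivity)]
  exact hn

lemma open_sh (H : Hy Ω lam u) (n : ℕ) (w : ℂ) :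
    IsOpen {z | z + ((1 / √(lam n) : ℝ) : ℂ) * w ∈ Ω} :=
  H.op.preimage (by fun_prop)

lemma X_cont (H : Hy Ω lam u) (n : ℕ) (a : ℤ) (w : ℂ) :
    ContinuousOn (X lam u n a w) {z | z + ((1 / √(lam n) : ℝ) : ℂ) * w ∈ Ω} :=
  (smooth H n a).comp (by fun_prop) fun z hz => hz

/-- the data of the compactness theorem -/
lemma dat (H : Hy Ω lam u) {φ : ℕ → ℂ → ℝ} (hφ : ∀ i, Wg Ω (φ i))
    (hlim : Tendsto (fun i => ∫ z, φ i z ∂(PP Ω)) atTop (𝓝 1)) :
    Dt (PP Ω) (X lam u) φ where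
  prob := prob H
  wm i := (hφ i).tf.1.continuous.measurable
  w01 i := (hφ i).mem
  wlim := hlim
  m0 n a := by
    have h1 : X lam u n a 0 = W (1 / √(lam n)) (u n) a := by
      funext z
      exact X_zero n a z
    rw [h1]
    exact aem ((smooth H n a).aemeasurable H.op.measurableSet)
  mw i w := by
    filter_upwards [ev_tf H (hφ i) w] with n hn
    exact aem (Pool.Agent.Y265.RW.int_mul (open_sh H n w) hn
      (X_cont H n 0 w)).aestronglyMeasurable.aemeasurable.restrict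
  sym n := by
    refine ae_PP H fun z hz k => ?_
    dsimp only
    rw [X_zero, X_zero,
      (Pool.Agent.W924.RW.WP.main Ω H.op _ _ (H.sys.sol n)).2.2.2 k z hz, ← mul_assoc,
      ← mul_pow]
    norm_num
  isoInt0 i a := by
    filter_upwards [ev_tf H (hφ i) 0] with n hn
    exact intg H (Pool.Agent.Y265.RW.int_mulr (open_sh H n 0) hn
      ((X_cont H n a 0).norm.pow 2)).restrict
  isoInt i w := by
    filter_upwards [ev_tf H (hφ i) w] with n hn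
    exact intg H (Pool.Agent.Y265.RW.int_mulr (open_sh H n w) hn
      ((X_cont H n 0 w).norm.pow 2)).restrict
  iso i k c a w := by
    have h1 := (Pool.Agent.N511.BRISO.ISO Ω H.op _ _ H.sys (φ i) (hφ i).tf k c a w).const_mul
      (1 / volume.real Ω)
    have e1 : ∀ n, ∫ z, φ i z * ‖∑ j, c j * X lam u n (a j) (w j) z‖ ^ 2 ∂(PP Ω) =
        1 / volume.real Ω * ∫ z, φ i z *
          ‖∑ j, c j * W (1 / √(lam n)) (u n) (a j) (z + ((1 / √(lam n) : ℝ) : ℂ) * w j)‖ ^ 2 := by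
      intro n
      rw [int_wt fun z hz => by rw [(hφ i).zero hz, zero_mul], smul_eq_mul]
      rfl
    simp only [e1]
    have e2 : ∫ z, φ i z ∂(PP Ω) = 1 / volume.real Ω * ∫ z, φ i z := by
      rw [int_wt fun z hz => (hφ i).zero hz, smul_eq_mul]
    rw [e2]
    convert h1 using 2
    ring

/-- for large `n`, on the support of the weight, the cutoff is invisible -/
lemma ev_resc (H : Hy Ω lam u) {χ : ℝ → ℝ} (hχ : IsCutoff χ) {φ : ℂ → ℝ} (hφ : Wg Ω φ) {k : ℕ}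
    (w : Fin k → ℂ) : ∀ᶠ n in atTop, ∀ (v : ℂ → ℝ) (z : ℂ), φ z ≠ 0 → ∀ j,
      resc χ Ω (lam n) v z (w j) = v (z + ((1 / √(lam n) : ℝ) : ℂ) * w j) := by
  obtain ⟨d0, hd0, hd⟩ : ∃ d0 : ℝ, 0 < d0 ∧ ∀ z ∈ tsupport φ, d0 ≤ Metric.infDist z (frontier Ω) := by
    rcases (tsupport φ).eq_empty_or_nonempty with h | h
    · exact ⟨1, one_pos, by rw [h]; simp⟩
    · obtain ⟨x, hx, hx'⟩ := hφ.tf.2.1.isCompact.exists_isMinOn h
        (Metric.continuous_infDist_pt (frontier Ω)).continuousOn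
      exact ⟨_, Pool.Agent.N163.BR.dist_pos' H.op H.bd (hφ.tf.2.2 hx), fun z hz => hx' hz⟩
  obtain ⟨δ, hδ, hδ1⟩ := hχ.one
  have hsq : Tendsto (fun n => √(lam n)) atTop atTop := Real.tendsto_sqrt_atTop.comp H.lim
  have hev : ∀ᶠ n in atTop, ∀ j, ‖w j‖ / d0 / δ ≤ √(lam n) := by
    rw [eventually_all]
    intro j
    exact hsq.eventually_ge_atTop _
  filter_upwards [hev] with n hn v z hz j
  have hs : 0 < √(lam n) := Real.sqrt_pos.2 (H.pos n)
  have hzd := hd z (subset_tsupport _ hz)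
  unfold resc
  have h1 : ‖w j‖ / (√(lam n) * Metric.infDist z (frontier Ω)) ≤ δ := by
    have hdz : 0 < Metric.infDist z (frontier Ω) := lt_of_lt_of_le hd0 hzd
    rw [div_le_iff₀ (mul_pos hs hdz)]
    have h2 := hn j
    rw [div_le_iff₀ hδ, div_le_iff₀ hd0] at h2
    calc ‖w j‖ ≤ √(lam n) * δ * d0 := h2
      _ ≤ √(lam n) * δ * Metric.infDist z (frontier Ω) := by gcongr
      _ = _ := by ring
  rw [hδ1 _ (by have := lt_of_lt_of_le hd0 hzd; positivity) h1, mul_one]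
  congr 2
  push_cast
  field_simp

/-- the exponentials -/
def FF (χ : ℝ → ℝ) (Ω : Set ℂ) (lam : ℝ) (v : ℂ → ℝ) {k : ℕ} (w : Fin k → ℂ) (t : Fin k → ℝ)
    (z : ℂ) : ℂ :=
  Complex.exp (I * ((∑ j, t j * resc χ Ω lam v z (w j) : ℝ) : ℂ))

lemma FF_norm (χ : ℝ → ℝ) (Ω : Set ℂ) (lam : ℝ) (v : ℂ → ℝ) {k : ℕ} (w : Fin k → ℂ)
    (t : Fin k → ℝ) (z : ℂ) : ‖FF χ Ω lam v w t z‖ = 1 := by
  unfold FF
  rw [mul_comm, Complex.norm_exp_ofReal_mul_I]

lemma FF_int (H : Hy Ω lam u) {χ : ℝ → ℝ} (hχ : IsCutoff χ) (n : ℕ) {k : ℕ} (w : Fin k → ℂ)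
    (t : Fin k → ℝ) : Integrable (FF χ Ω (lam n) (u n) w t) (PP Ω) := by
  haveI : IsFiniteMeasure (volume.restrict Ω) :=
    ⟨by rw [Measure.restrict_apply_univ]; exact (vol_fin H).lt_top⟩
  refine intg H (Integrable.of_bound ?_ 1 (Eventually.of_forall fun z => (FF_norm ..).le))
  unfold FF
  refine (by fun_prop : Continuous fun x : ℝ =>
    Complex.exp (I * (x : ℂ))).comp_aestronglyMeasurable ?_
  refine Finset.aestronglyMeasurable_fun_sum _ fun j _ => ?_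
  exact (Pool.Agent.N163.BR.resc_meas H.op H.bd hχ (H.pos n)
    (H.sys.sol n).smooth.continuousOn (w j)).const_mul (t j)

lemma FF_wt (H : Hy Ω lam u) {χ : ℝ → ℝ} (hχ : IsCutoff χ) {φ : ℂ → ℝ} (hφ : Wg Ω φ) (n : ℕ)
    {k : ℕ} (w : Fin k → ℂ) (t : Fin k → ℝ) :
    ‖(∫ z, FF χ Ω (lam n) (u n) w t z ∂(PP Ω)) -
      ∫ z, (φ z : ℂ) * FF χ Ω (lam n) (u n) w t z ∂(PP Ω)‖ ≤ 1 - ∫ z, φ z ∂(PP Ω) := by
  haveI := prob H
  have hi := FF_int H hχ n w t
  have hφF : Integrable (fun z => (φ z : ℂ) * FF χ Ω (lam n) (u n) w t z) (PP Ω) := by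
    refine Integrable.of_bound (C := 1) ?_ (Eventually.of_forall fun z => ?_)
    · exact (Complex.continuous_ofReal.comp hφ.tf.1.continuous).aestronglyMeasurable.mul hi.1
    · rw [norm_mul, FF_norm, mul_one, Complex.norm_real, Real.norm_of_nonneg (hφ.mem z).1]
      exact (hφ.mem z).2
  rw [← integral_sub hi hφF]
  refine (norm_integral_le_integral_norm _).trans (le_of_eq ?_)
  have e4 : ∀ z, ‖FF χ Ω (lam n) (u n) w t z - (φ z : ℂ) * FF χ Ω (lam n) (u n) w t z‖ =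
      1 - φ z := by
    intro z
    rw [show FF χ Ω (lam n) (u n) w t z - (φ z : ℂ) * FF χ Ω (lam n) (u n) w t z =
      (((1 - φ z : ℝ) : ℂ) * FF χ Ω (lam n) (u n) w t z) by push_cast; ring,
      norm_mul, FF_norm, mul_one, Complex.norm_real,
      Real.norm_of_nonneg (by linarith [(hφ.mem z).2])]
  simp only [e4]
  rw [integral_sub (integrable_const _) (wint H hφ)]
  simp

theorem t_PL : S_COMP → S_PL := by
  intro hC Ω hΩ hb hne lam hpos hlam u hu heq hqe χ hχ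
  have H : Hy Ω lam u := ⟨hΩ, hb, hne, hpos, hlam,
    Pool.Agent.Y265.RW.raw_sys Ω lam u hpos hlam hu heq hqe⟩
  obtain ⟨φ, hφ, hφl⟩ := exists_wt H
  obtain ⟨σ, μ, hσ, hμ, hc⟩ := hC ℂ _ (PP Ω) (X lam u) φ (dat H hφ hφl)
  refine ⟨σ, μ, hσ, hμ, fun k w t => ?_⟩
  rw [Metric.tendsto_atTop']
  intro ε hε
  obtain ⟨i, hi⟩ : ∃ i, 1 - ε / 4 < ∫ z, φ i z ∂(PP Ω) :=
    (hφl.eventually (lt_mem_nhds (by linarith))).exists
  have h1 := hc k w t i (ε / 4) (by positivity)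
  have h2 := hσ.tendsto_atTop.eventually (ev_resc H hχ (hφ i) w)
  obtain ⟨N, hN⟩ := eventually_atTop.1 (h1.and h2)
  refine ⟨N, fun n hn => ?_⟩
  obtain ⟨h3, h4⟩ := hN n hn.le
  have e1 : ((1 / volume.real Ω : ℝ) : ℂ) * ∫ z in Ω,
      Complex.exp (I * ((∑ j, t j * resc χ Ω (lam (σ n)) (u (σ n)) z (w j) : ℝ) : ℂ)) =
      ∫ z, FF χ Ω (lam (σ n)) (u (σ n)) w t z ∂(PP Ω) := by
    rw [int_PP, Complex.real_smul]
    rfl
  have e2 : ∫ z, (φ i z : ℂ) * Complex.exp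
        (I * (((∑ j, (t j : ℂ) * X lam u (σ n) 0 (w j) z).re : ℝ) : ℂ)) ∂(PP Ω) =
      ∫ z, (φ i z : ℂ) * FF χ Ω (lam (σ n)) (u (σ n)) w t z ∂(PP Ω) := by
    refine integral_congr_ae (Eventually.of_forall fun z => ?_)
    dsimp only
    by_cases hz : φ i z = 0
    · rw [hz]; simp
    · unfold FF
      congr 4
      rw [Complex.re_sum]
      refine Finset.sum_congr rfl fun j _ => ?_
      rw [h4 (u (σ n)) z hz j, X_val, Complex.re_ofReal_mul, Complex.ofReal_re]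
  rw [e2] at h3
  have h5 := FF_wt H hχ (hφ i) (σ n) w t
  rw [dist_eq_norm, e1]
  have h6 := norm_sub_le_norm_sub_add_norm_sub (∫ z, FF χ Ω (lam (σ n)) (u (σ n)) w t z ∂(PP Ω))
    (∫ z, (φ i z : ℂ) * FF χ Ω (lam (σ n)) (u (σ n)) w t z ∂(PP Ω))
    (∫ f : MW, Complex.exp (I * (lin w t f : ℝ)) ∂μ)
  linarith

end

end Pool.Agent.U867.SG
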